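import Mathlib.RingTheory.Valuation.Basic
import Mathlib.Data.Int.ConditionallyCompleteOrder
import Mathlib.Data.Complex.Basic
import Mathlib.AlgebraicGeometry.EllipticCurve.Affine.Point

/-!
Places of a complex function field `K` (the points of the smooth projective curve with function
field `K`), orders of functions, and pull-backs of divisors of an elliptic curve along `K`-points.
-/

open WeierstrassCurve WithZero

namespace Pool.Agent.MP_d178f2_ag

variable {K : Type*} [Field K] [Algebra ℂ K]

/-- A place of `K / ℂ`: a normalised discrete valuation of `K` that is trivial on `ℂ`. -/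
def IsPlace (v : Valuation K ℤᵐ⁰) : Prop :=
  Function.Surjective v ∧ v.IsTrivialOn ℂ

/-- The order of vanishing of `f` at `v`. -/
def ord (v : Valuation K ℤᵐ⁰) (f : K) : ℤ := -log (v f)

/-- The multiplicity at `v` of the pull-back of the prime divisor `[c]` of `E` along the map
`P ∈ E(K)`.  For `P = (x, y)` and `c = (a, b)` it is `max 0 (min (ord (x - a)) (ord (y - b)))`; for
`c` the origin it is the order of the uniformiser `x / y` if `x` has a pole at `v`, and `0`
otherwise.  It is `0` for constant `P` (where the pull-back bundle is trivial); for `P = c` this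
comes from `log 0 = 0`. -/
noncomputable def mult {W : WeierstrassCurve ℂ} (v : Valuation K ℤᵐ⁰) :
    (W.baseChange K).toAffine.Point → W.toAffine.Point → ℤ
  | .zero, _ => 0
  | .some x y _, .zero => if 1 < v x then ord v (x / y) else 0
  | .some x y _, .some a b _ =>
      -log (min 1 (max (v (x - algebraMap ℂ K a)) (v (y - algebraMap ℂ K b))))

/-- The coefficient at `v` of the pull-back `P^* D` of a divisor `D` of `E`. -/
noncomputable def pullback {W : WeierstrassCurve ℂ} (v : Valuation K ℤᵐ⁰)
    (P : (W.baseChange K).toAffine.Point) (D : W.toAffine.Point →₀ ℤ) : ℤ :=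
  D.sum fun c n => n * mult v P c

end Pool.Agent.MP_d178f2_ag
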