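import Mathlib.Data.Int.Star
import Mathlib.Algebra.Order.Ring.Star
import Mathlib.RingTheory.DedekindDomain.AdicValuation
import Mathlib.Analysis.Complex.Polynomial.Basic
import Mathlib.RingTheory.Valuation.Integral
import Mathlib.RingTheory.Ideal.Norm.RelNorm
import Mathlib.RingTheory.SimpleRing.Principal
import Mathlib.RingTheory.Henselian
import Mathlib.RingTheory.RegularLocalRing.Defs
import Mathlib.Tactic.Polynomial.Basic
import Pool.Agent.MP_d178f2_ag.Defs

-- ======== part 0: formerly Pool.Agent.MP_d178f2_ag.Dedekind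
section MrgPart0

/-!
The affine coordinate ring of a complex elliptic curve is a Dedekind domain whose nonzero primes are
the ideals of its affine points.
-/

open Polynomial WeierstrassCurve WeierstrassCurve.Affine WeierstrassCurve.Affine.CoordinateRing
open scoped Polynomial.Bivariate

namespace Pool.Agent.MP_d178f2_ag

variable (W : WeierstrassCurve.Affine ℂ)

/-- The coordinate function `x`. -/
noncomputable def xx : W.CoordinateRing := mk W (C X)

/-- The coordinate function `y`. -/
noncomputable def yy : W.CoordinateRing := mk W Y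

lemma algebraMap_eq (a : ℂ) : algebraMap ℂ W.CoordinateRing a = mk W (C (C a)) := rfl

lemma XClass_eq (a : ℂ) : XClass W a = xx W - algebraMap ℂ _ a := by
  simp only [XClass, xx, algebraMap_eq, map_sub]

lemma YClass_eq (b : ℂ) : YClass W (C b) = yy W - algebraMap ℂ _ b := by
  simp only [YClass, yy, algebraMap_eq, map_sub]

lemma equation_xx_yy : yy W ^ 2 + algebraMap ℂ _ W.a₁ * xx W * yy W + algebraMap ℂ _ W.a₃ * yy W
    = xx W ^ 3 + algebraMap ℂ _ W.a₂ * xx W ^ 2 + algebraMap ℂ _ W.a₄ * xx W
      + algebraMap ℂ _ W.a₆ := by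
  have h : mk W W.polynomial = 0 := AdjoinRoot.mk_self
  simp only [Affine.polynomial, map_add, map_sub, map_mul, map_pow] at h
  simp only [xx, yy, algebraMap_eq]
  linear_combination h

lemma exists_equation (a : ℂ) : ∃ b, W.Equation a b := by
  obtain ⟨s, hs⟩ := IsAlgClosed.exists_eq_mul_self
    ((W.a₁ * a + W.a₃) ^ 2 + 4 * (a ^ 3 + W.a₂ * a ^ 2 + W.a₄ * a + W.a₆))
  refine ⟨(s - (W.a₁ * a + W.a₃)) / 2, ?_⟩
  rw [equation_iff]
  linear_combination (-1 / 4 : ℂ) * hs

variable {W}

lemma key_identity {a b : ℂ} (h : W.Equation a b) :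
    (yy W - algebraMap ℂ _ b) * (yy W - algebraMap ℂ _ (W.negY a b))
      = (xx W - algebraMap ℂ _ a) * (xx W ^ 2 + algebraMap ℂ _ a * xx W + algebraMap ℂ _ a ^ 2
        + algebraMap ℂ _ W.a₂ * (xx W + algebraMap ℂ _ a) + algebraMap ℂ _ W.a₄
        - algebraMap ℂ _ W.a₁ * yy W) := by
  rw [equation_iff] at h
  have h1 := congrArg (algebraMap ℂ W.CoordinateRing) h
  simp only [map_add, map_mul, map_pow] at h1
  have h2 := equation_xx_yy W
  simp only [negY, map_sub, map_neg, map_mul]
  linear_combination h2 - h1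

lemma XYIdeal_isMaximal {a b : ℂ} (h : W.Equation a b) : (XYIdeal W a (C b)).IsMaximal :=
  Ideal.Quotient.maximal_of_isField _
    ((quotientXYIdealEquiv (W' := W) (x := a) (y := C b) h).toMulEquiv.isField
      (Field.toIsField ℂ))

instance : Module.Finite ℂ[X] W.CoordinateRing := .of_basis (CoordinateRing.basis W)

instance : IsNoetherianRing W.CoordinateRing :=
  isNoetherianRing_of_surjective ℂ[X][Y] _ (mk W) AdjoinRoot.mk_surjective

lemma exists_eq_XYIdeal (P : Ideal W.CoordinateRing) (hP : P ≠ ⊥) [hp : P.IsPrime] :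
    ∃ a b, W.Equation a b ∧ P = XYIdeal W a (C b) := by
  obtain ⟨p, hpP, hp0⟩ := (Ideal.under ℂ[X] P).ne_bot_iff.1 (Ideal.under_ne_bot ℂ[X] hP)
  have hprime : (Ideal.under ℂ[X] P).IsPrime := Ideal.IsPrime.under ℂ[X] P
  obtain ⟨a, ha⟩ : ∃ a : ℂ, X - C a ∈ Ideal.under ℂ[X] P := by
    have hs := (IsAlgClosed.splits p).eq_prod_roots
    rw [hs] at hpP
    rcases hprime.mem_or_mem hpP with h | h
    · exfalso
      apply hprime.ne_top
      exact Ideal.eq_top_of_isUnit_mem _ h
        (isUnit_C.2 (isUnit_iff_ne_zero.2 (leadingCoeff_ne_zero.2 hp0)))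
    · obtain ⟨q, hq, hq'⟩ := (hprime.multiset_prod_mem_iff_exists_mem _).1 h
      obtain ⟨a, -, rfl⟩ := Multiset.mem_map.1 hq
      exact ⟨a, hq'⟩
  have ha' : xx W - algebraMap ℂ _ a ∈ P := by
    rw [← XClass_eq]
    exact ha
  obtain ⟨b, hb⟩ := exists_equation W a
  have key : ∀ b, W.Equation a b → yy W - algebraMap ℂ _ b ∈ P → P = XYIdeal W a (C b) := by
    intro b hb hb'
    refine ((XYIdeal_isMaximal hb).eq_of_le hp.ne_top ?_).symm
    rw [XYIdeal, Ideal.span_le, XClass_eq, YClass_eq]
    rintro z (rfl | rfl)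
    · exact ha'
    · exact hb'
  have h1 : (yy W - algebraMap ℂ _ b) * (yy W - algebraMap ℂ _ (W.negY a b)) ∈ P := by
    rw [key_identity hb]
    exact P.mul_mem_right _ ha'
  rcases hp.mem_or_mem h1 with h | h
  · exact ⟨a, b, hb, key b hb h⟩
  · exact ⟨a, _, (equation_neg a b).2 hb, key _ ((equation_neg a b).2 hb) h⟩

lemma const_notMem {a b c : ℂ} (h : W.Equation a b) (hc : c ≠ 0) :
    algebraMap ℂ W.CoordinateRing c ∉ XYIdeal W a (C b) := fun hm =>
  (XYIdeal_isMaximal h).ne_top
    (Ideal.eq_top_of_isUnit_mem _ hm ((isUnit_iff_ne_zero.2 hc).map _))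

lemma isPrincipal_aux {A : Type*} [CommRing A] (P : Ideal A) [P.IsPrime] (s t u w : A)
    (hP : P = Ideal.span {s, t}) (hu : u ∉ P) (h : t * u = s * w) :
    (IsLocalRing.maximalIdeal (Localization.AtPrime P)).IsPrincipal := by
  rw [← Localization.AtPrime.map_eq_maximalIdeal]
  refine ⟨⟨algebraMap A _ s, ?_⟩⟩
  have hunit : IsUnit (algebraMap A (Localization.AtPrime P) u) :=
    IsLocalization.map_units (Localization.AtPrime P) (⟨u, hu⟩ : P.primeCompl)
  obtain ⟨u', hu'⟩ := hunit.exists_right_inv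
  have h1 : algebraMap A (Localization.AtPrime P) t
      = (algebraMap A _ w * u') * algebraMap A _ s := by
    have := congrArg (algebraMap A (Localization.AtPrime P)) h
    simp only [map_mul] at this
    linear_combination u' * this - algebraMap A (Localization.AtPrime P) t * hu'
  rw [congrArg (Ideal.map (algebraMap A (Localization.AtPrime P))) hP, Ideal.map_span,
    Set.image_pair, Ideal.submodule_span_eq]
  apply le_antisymm
  · rw [Ideal.span_le]
    rintro z (rfl | rfl)
    · exact Ideal.mem_span_singleton_self _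
    · rw [h1]
      exact Ideal.mul_mem_left _ _ (Ideal.mem_span_singleton_self _)
  · exact Ideal.span_mono (by simp)

instance [W.IsElliptic] : IsDedekindDomainDvr W.CoordinateRing where
  is_dvr_at_nonzero_prime P hP hp := by
    obtain ⟨a, b, hab, hPe⟩ := exists_eq_XYIdeal P hP
    have hns : W.Nonsingular a b := equation_iff_nonsingular.1 hab
    have hnf := IsLocalization.AtPrime.not_isField W.CoordinateRing hP (Localization.AtPrime P)
    refine ((IsDiscreteValuationRing.TFAE (Localization.AtPrime P) hnf).out 0 4).mpr ?_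
    have hspan : P = Ideal.span {xx W - algebraMap ℂ _ a, yy W - algebraMap ℂ _ b} := by
      rw [hPe, XYIdeal, XClass_eq, YClass_eq]
    have hx : xx W - algebraMap ℂ _ a ∈ P := hspan ▸ Ideal.subset_span (by simp)
    have hy : yy W - algebraMap ℂ _ b ∈ P := hspan ▸ Ideal.subset_span (by simp)
    rcases ((nonsingular_iff' a b).1 hns).2 with h | h
    · refine isPrincipal_aux P (yy W - algebraMap ℂ _ b) (xx W - algebraMap ℂ _ a) _ _
        (by rw [hspan, Set.pair_comm]) ?_ (key_identity hab).symm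
      intro hm
      apply const_notMem hab h
      rw [← hPe]
      have e : algebraMap ℂ W.CoordinateRing (W.a₁ * b - (3 * a ^ 2 + 2 * W.a₂ * a + W.a₄))
          = (xx W + 2 * algebraMap ℂ _ a + algebraMap ℂ _ W.a₂) * (xx W - algebraMap ℂ _ a)
            - algebraMap ℂ _ W.a₁ * (yy W - algebraMap ℂ _ b)
            - (xx W ^ 2 + algebraMap ℂ _ a * xx W + algebraMap ℂ _ a ^ 2
              + algebraMap ℂ _ W.a₂ * (xx W + algebraMap ℂ _ a) + algebraMap ℂ _ W.a₄
              - algebraMap ℂ _ W.a₁ * yy W) := by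
        simp only [map_sub, map_add, map_mul, map_pow, map_ofNat]
        ring
      rw [e]
      exact P.sub_mem (P.sub_mem (P.mul_mem_left _ hx) (P.mul_mem_left _ hy)) hm
    · refine isPrincipal_aux P (xx W - algebraMap ℂ _ a) (yy W - algebraMap ℂ _ b) _ _
        hspan ?_ (key_identity hab)
      intro hm
      apply const_notMem hab h
      rw [← hPe]
      have e : algebraMap ℂ W.CoordinateRing (2 * b + W.a₁ * a + W.a₃)
          = (yy W - algebraMap ℂ _ (W.negY a b)) - (yy W - algebraMap ℂ _ b) := by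
        simp only [negY, map_sub, map_add, map_mul, map_neg, map_ofNat]
        ring
      rw [e]
      exact P.sub_mem hm hy

end Pool.Agent.MP_d178f2_ag

end MrgPart0

-- ======== part 1: formerly Pool.Agent.MP_d178f2_ag.Reduction
section MrgPart1

/-!
Specialisation of `K`-points of a complex elliptic curve at a valuation of `K` with residue
field `ℂ`: it is a group homomorphism `E(K) → E(ℂ)`.
-/

open Polynomial WeierstrassCurve WeierstrassCurve.Affine WithZero

set_option linter.unusedSectionVars false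

namespace Pool.Agent.MP_d178f2_ag

variable {K : Type*} [Field K] [Algebra ℂ K]

section Val

variable {Γ : Type*} [LinearOrderedCommGroupWithZero Γ] (v : Valuation K Γ)

lemma val_mul_lt {u z : K} (hu : v u < 1) (hz : v z ≤ 1) : v (u * z) < 1 := by
  rw [map_mul]
  exact lt_of_le_of_lt (mul_le_of_le_one_right' hz) hu

lemma val_add_lt {u z : K} (hu : v u < 1) (hz : v z < 1) : v (u + z) < 1 :=
  Valuation.map_add_lt v hu hz

lemma val_sub_lt {u z : K} (hu : v u < 1) (hz : v z < 1) : v (u - z) < 1 :=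
  Valuation.map_sub_lt v hu hz

lemma quad_mem {s α β : K} (hα : α ∈ v.integer) (hβ : β ∈ v.integer) (h : s ^ 2 + α * s = β) :
    s ∈ v.integer := by
  by_contra hs
  have hs1 : 1 < v s := not_le.1 hs
  have hs0 : s ≠ 0 := by
    rintro rfl
    simp at hs1
  have hu : v s⁻¹ < 1 := by
    rw [map_inv₀]
    exact inv_lt_one_of_one_lt₀ hs1
  have hu' : s⁻¹ ∈ v.integer := hu.le
  have e : (1 : K) = s⁻¹ * (β * s⁻¹ - α) := by
    rw [← h]
    field_simp
    ring
  have := val_mul_lt v hu (show β * s⁻¹ - α ∈ v.integer from sub_mem (mul_mem hβ hu') hα)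
  rw [← e, map_one] at this
  exact lt_irrefl _ this

variable [hv : v.IsTrivialOn ℂ]

lemma const_mem (c : ℂ) : algebraMap ℂ K c ∈ v.integer :=
  Valuation.IsTrivialOn.valuation_algebraMap_le_one v c

lemma const_eq_zero {c : ℂ} (h : v (algebraMap ℂ K c) < 1) : c = 0 := by
  by_contra hc
  rw [hv.eq_one c hc] at h
  exact lt_irrefl _ h

lemma const_eq {t : K} {a a' : ℂ} (h : v (t - algebraMap ℂ K a) < 1)
    (h' : v (t - algebraMap ℂ K a') < 1) : a = a' := by
  have := val_sub_lt v h' h
  rw [sub_sub_sub_cancel_left, ← map_sub] at this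
  exact sub_eq_zero.1 (const_eq_zero v this)

lemma mem_of_sub_lt {t : K} {a : ℂ} (h : v (t - algebraMap ℂ K a) < 1) : t ∈ v.integer := by
  have : t - algebraMap ℂ K a ∈ v.integer := h.le
  simpa using add_mem this (const_mem v a)

lemma aeval_mem {t : K} (ht : t ∈ v.integer) (p : ℂ[X]) : aeval t p ∈ v.integer := by
  induction p using Polynomial.induction_on' with
  | add p q hp hq => rw [map_add]; exact add_mem hp hq
  | monomial n a => rw [aeval_monomial]; exact mul_mem (const_mem v a) (pow_mem ht n)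

end Val

lemma isAlgebraic_adjoin (htr : Algebra.trdeg ℂ K = 1) {t : K} (ht : Transcendental ℂ t) :
    Algebra.IsAlgebraic (Algebra.adjoin ℂ {t}) K := by
  have h := (algebraicIndependent_iff_transcendental.2 ht).isTranscendenceBasis_of_lift_trdeg_le_of_finite
    (by rw [htr]; simp)
  have h2 := h.isAlgebraic
  rwa [Matrix.range_cons_empty] at h2

lemma transcendental_of_notMem {t : K} (ht : t ∉ Set.range (algebraMap ℂ K)) :
    Transcendental ℂ t := by
  intro h
  apply ht
  have := minpoly.mem_range_of_degree_eq_one ℂ t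
    (IsAlgClosed.degree_eq_one_of_irreducible ℂ (minpoly.irreducible h.isIntegral))
  exact this

/-- The residue field of a nontrivial valuation of a function field of one variable is `ℂ`. -/
lemma exists_residue (htr : Algebra.trdeg ℂ K = 1) {Γ : Type*} [LinearOrderedCommGroupWithZero Γ]
    (v : Valuation K Γ) [hv : v.IsTrivialOn ℂ] (hπ : ∃ π, π ≠ 0 ∧ v π < 1) {t : K}
    (ht : t ∈ v.integer) : ∃ a : ℂ, v (t - algebraMap ℂ K a) < 1 := by
  by_cases h : t ∈ Set.range (algebraMap ℂ K)
  · obtain ⟨a, rfl⟩ := h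
    exact ⟨a, by simp⟩
  obtain ⟨π, hπ0, hπ⟩ := hπ
  have halg := isAlgebraic_adjoin htr (transcendental_of_notMem h)
  obtain ⟨z, hz, r, hr0, hr⟩ := (halg.isAlgebraic π).exists_nonzero_eq_adjoin_mul
    (mem_nonZeroDivisors_of_ne_zero hπ0)
  have hA : ∀ s : Algebra.adjoin ℂ {t}, (s : K) ∈ v.integer := by
    intro s
    obtain ⟨p, hp⟩ := Algebra.adjoin_mem_exists_aeval ℂ t s.2
    rw [← hp]
    exact aeval_mem v ht p
  have hzO : z ∈ v.integer := by
    clear hr
    induction hz using Algebra.adjoin_induction with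
    | mem x hx => rw [Set.mem_singleton_iff.1 hx]; exact hπ.le
    | algebraMap s => exact hA s
    | add x y _ _ hx hy => exact add_mem hx hy
    | mul x y _ _ hx hy => exact mul_mem hx hy
  have hr1 : v (r : K) < 1 := by
    have := val_mul_lt v hπ hzO
    rwa [hr] at this
  obtain ⟨p, hp⟩ := Algebra.adjoin_mem_exists_aeval ℂ t r.2
  have hp0 : p ≠ 0 := by
    rintro rfl
    apply hr0
    ext
    simpa using hp.symm
  by_contra hcon
  push Not at hcon
  have h1 : ∀ a : ℂ, v (t - algebraMap ℂ K a) = 1 := fun a =>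
    le_antisymm (show t - algebraMap ℂ K a ∈ v.integer from sub_mem ht (const_mem v a)) (hcon a)
  rw [← hp, (IsAlgClosed.splits p).eq_prod_roots, map_mul, aeval_C, map_mul,
    hv.eq_one _ (leadingCoeff_ne_zero.2 hp0), one_mul, map_multiset_prod, map_multiset_prod,
    Multiset.map_map, Multiset.map_map] at hr1
  simp [h1] at hr1

variable (W : WeierstrassCurve.Affine ℂ)

lemma equation_K {x y : K} (h : (W⁄K).Equation x y) :
    y ^ 2 + algebraMap ℂ K W.a₁ * x * y + algebraMap ℂ K W.a₃ * y
      = x ^ 3 + algebraMap ℂ K W.a₂ * x ^ 2 + algebraMap ℂ K W.a₄ * x + algebraMap ℂ K W.a₆ :=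
  (equation_iff _ _).1 h

variable [DecidableEq K]

variable (K) in
/-- Constant points. -/
noncomputable def iota : W.Point →+ (W⁄K).Point :=
  (Point.baseChange ℂ K : (W⁄ℂ).Point →+ (W⁄K).Point)

lemma nonsingular_iota {a b : ℂ} (h : W.Nonsingular a b) :
    (W⁄K).Nonsingular (algebraMap ℂ K a) (algebraMap ℂ K b) :=
  (W.map_nonsingular (algebraMap ℂ K).injective a b).2 h

lemma iota_some {a b : ℂ} (h : W.Nonsingular a b) :
    iota K W (.some a b h) = .some _ _ (nonsingular_iota W h) := rfl

variable {Γ : Type*} [LinearOrderedCommGroupWithZero Γ] (v : Valuation K Γ) [hv : v.IsTrivialOn ℂ]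

omit [DecidableEq K] in
lemma y_mem {x y : K} (h : (W⁄K).Equation x y) (hx : x ∈ v.integer) : y ∈ v.integer := by
  refine quad_mem v (α := algebraMap ℂ K W.a₁ * x + algebraMap ℂ K W.a₃)
    (β := x ^ 3 + algebraMap ℂ K W.a₂ * x ^ 2 + algebraMap ℂ K W.a₄ * x + algebraMap ℂ K W.a₆)
    ?_ ?_ ?_
  · exact add_mem (mul_mem (const_mem v _) hx) (const_mem v _)
  · exact add_mem (add_mem (add_mem (pow_mem hx 3) (mul_mem (const_mem v _) (pow_mem hx 2)))
      (mul_mem (const_mem v _) hx)) (const_mem v _)
  · linear_combination equation_K W h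

lemma add_integral {x₁ y₁ x₃ y₃ : K} (h₁ : (W⁄K).Nonsingular x₁ y₁) (h₃ : (W⁄K).Nonsingular x₃ y₃)
    (hx₁ : 1 < v x₁) (hx₃ : x₃ ∈ v.integer) :
    ∃ x y h, Point.some x₁ y₁ h₁ + Point.some x₃ y₃ h₃ = Point.some x y h ∧ x ∈ v.integer := by
  have hne : x₁ ≠ x₃ := by
    rintro rfl
    exact absurd hx₃ (not_le.2 hx₁)
  refine ⟨_, _, _, Point.add_of_X_ne hne, ?_⟩
  have hy₃ := y_mem W v h₃.1 hx₃
  have hx0 : x₁ ≠ 0 := by
    rintro rfl
    simp at hx₁
  have ht : v x₁⁻¹ < 1 := by
    rw [map_inv₀]
    exact inv_lt_one_of_one_lt₀ hx₁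
  obtain ⟨t, htdef⟩ : ∃ t, t = x₁⁻¹ := ⟨_, rfl⟩
  rw [← htdef] at ht
  have ht' : t ∈ v.integer := ht.le
  have htx : t * x₁ = 1 := by rw [htdef]; field_simp
  have e₁ := equation_K W h₁.1
  have e₃ := equation_K W h₃.1
  have c1 := const_mem v W.a₁
  have c2 := const_mem v W.a₂
  have c3 := const_mem v W.a₃
  have c4 := const_mem v W.a₄
  have c6 := const_mem v W.a₆
  have hs : y₁ * t ^ 2 ∈ v.integer := by
    refine quad_mem v (α := algebraMap ℂ K W.a₁ * t + algebraMap ℂ K W.a₃ * t ^ 2)
      (β := t + algebraMap ℂ K W.a₂ * t ^ 2 + algebraMap ℂ K W.a₄ * t ^ 3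
        + algebraMap ℂ K W.a₆ * t ^ 4) ?_ ?_ ?_
    · exact add_mem (mul_mem c1 ht') (mul_mem c3 (pow_mem ht' 2))
    · exact add_mem (add_mem (add_mem ht' (mul_mem c2 (pow_mem ht' 2)))
        (mul_mem c4 (pow_mem ht' 3))) (mul_mem c6 (pow_mem ht' 4))
    · rw [htdef]
      field_simp
      linear_combination e₁
  have hunit : v (1 - t * x₃) = 1 := by
    have := val_mul_lt v ht hx₃
    exact Valuation.map_one_sub_of_lt v this
  have hu0 : 1 - t * x₃ ≠ 0 := by
    intro h
    rw [h] at hunit
    simp at hunit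
  have hinv : (1 - t * x₃)⁻¹ ∈ v.integer := by
    show v _ ≤ 1
    rw [map_inv₀, hunit, inv_one]
  have e : (W⁄K).addX x₁ x₃ ((W⁄K).slope x₁ x₃ y₁ y₃)
      = (x₃ + t * x₃ ^ 2 + 2 * algebraMap ℂ K W.a₂ * t * x₃
          + algebraMap ℂ K W.a₄ * (t + t ^ 2 * x₃) + 2 * algebraMap ℂ K W.a₆ * t ^ 2
          - 2 * (y₁ * t ^ 2) * y₃ - algebraMap ℂ K W.a₁ * (t * y₃ + x₃ * (y₁ * t ^ 2))
          - algebraMap ℂ K W.a₃ * (y₁ * t ^ 2 + t ^ 2 * y₃)) * ((1 - t * x₃)⁻¹) ^ 2 := by
    rw [slope_of_X_ne hne, addX]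
    have hd : x₁ - x₃ ≠ 0 := sub_ne_zero.2 hne
    have e1 : (1 - t * x₃)⁻¹ = x₁ / (x₁ - x₃) := by
      rw [htdef]
      field_simp
    rw [e1, htdef]
    rw [show (W⁄K).a₁ = algebraMap ℂ K W.a₁ from rfl, show (W⁄K).a₂ = algebraMap ℂ K W.a₂ from rfl]
    field_simp
    linear_combination e₁ + e₃
  rw [e]
  have two : (2 : K) ∈ v.integer := by simp
  refine mul_mem ?_ (pow_mem hinv 2)
  refine sub_mem (sub_mem (sub_mem (add_mem (add_mem (add_mem (add_mem hx₃ ?_) ?_) ?_) ?_) ?_) ?_) ?_
  · exact mul_mem ht' (pow_mem hx₃ 2)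
  · exact mul_mem (mul_mem (mul_mem two c2) ht') hx₃
  · exact mul_mem c4 (add_mem ht' (mul_mem (pow_mem ht' 2) hx₃))
  · exact mul_mem (mul_mem two c6) (pow_mem ht' 2)
  · exact mul_mem (mul_mem two hs) hy₃
  · exact mul_mem c1 (add_mem (mul_mem ht' hy₃) (mul_mem hx₃ hs))
  · exact mul_mem c3 (add_mem hs (mul_mem (pow_mem ht' 2) hy₃))

/-- The points specialising to the origin. -/
def E1 : AddSubgroup (W⁄K).Point where
  carrier := {P | ∀ x y h, P = Point.some x y h → 1 < v x}
  zero_mem' := by
    intro x y h hP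
    exact absurd hP.symm (Point.some_ne_zero h)
  neg_mem' := by
    rintro (_ | ⟨x, y, h⟩) hP x' y' h' e
    · exact absurd e.symm (Point.some_ne_zero h')
    · rw [Point.neg_some, Point.some.injEq] at e
      rw [← e.1]
      exact hP x y h rfl
  add_mem' := by
    intro P Q hP hQ x y h e
    by_contra hx
    have hx' : x ∈ v.integer := not_lt.1 hx
    rcases P with _ | ⟨x₁, y₁, h₁⟩
    · rw [← Point.zero_def, zero_add] at e
      exact hx (hQ x y h e)
    · have h1 := hP x₁ y₁ h₁ rfl
      obtain ⟨x', y', h', e', hx''⟩ := add_integral W v ((nonsingular_neg _ _).2 h₁) h h1 hx'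
      rw [← Point.neg_some h₁, ← e, neg_add_cancel_left] at e'
      exact absurd hx'' (not_le.2 (hQ x' y' h' e'))

lemma mem_E1 {P : (W⁄K).Point} : P ∈ E1 W v ↔ ∀ x y h, P = Point.some x y h → 1 < v x := Iff.rfl

lemma some_mem_E1 {x y : K} (h : (W⁄K).Nonsingular x y) : Point.some x y h ∈ E1 W v ↔ 1 < v x := by
  rw [mem_E1]
  constructor
  · exact fun H => H x y h rfl
  · intro H x' y' h' e
    rw [Point.some.injEq] at e
    rwa [← e.1]

lemma iota_mem_E1 {c : W.Point} (h : iota K W c ∈ E1 W v) : c = 0 := by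
  rcases c with _ | ⟨a, b, hab⟩
  · rfl
  · rw [iota_some, some_mem_E1] at h
    exact absurd (const_mem v a) (not_le.2 h)

lemma sub_iota_mem_E1 {x y : K} (h : (W⁄K).Nonsingular x y) {a b : ℂ} (hab : W.Nonsingular a b)
    (hx : v (x - algebraMap ℂ K a) < 1) (hy : v (y - algebraMap ℂ K b) < 1) :
    Point.some x y h - iota K W (Point.some a b hab) ∈ E1 W v := by
  have hneg : (W⁄K).negY (algebraMap ℂ K a) (algebraMap ℂ K b) = algebraMap ℂ K (W.negY a b) :=
    W.map_negY (algebraMap ℂ K) a b
  by_cases hxa : x = algebraMap ℂ K a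
  · have hyb : y = algebraMap ℂ K b := by
      rcases Y_eq_of_X_eq h.1 (nonsingular_iota W hab).1 hxa with h1 | h1
      · exact h1
      · rw [hneg] at h1
        have h2 : W.negY a b = b := const_eq v (t := y) (by simp [h1]) hy
        rw [h1, h2]
    subst hxa hyb
    rw [iota_some, sub_self]
    exact zero_mem _
  rw [iota_some, sub_eq_add_neg, Point.neg_some, Point.add_of_X_ne hxa, some_mem_E1]
  by_contra hcon
  have hx3 : (W⁄K).addX x (algebraMap ℂ K a) ((W⁄K).slope x (algebraMap ℂ K a) y
      ((W⁄K).negY (algebraMap ℂ K a) (algebraMap ℂ K b))) ∈ v.integer := not_lt.1 hcon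
  rw [hneg, slope_of_X_ne hxa] at hx3
  obtain ⟨l, hl⟩ : ∃ l, l = (y - algebraMap ℂ K (W.negY a b)) / (x - algebraMap ℂ K a) := ⟨_, rfl⟩
  rw [← hl] at hx3
  have hd : x - algebraMap ℂ K a ≠ 0 := sub_ne_zero.2 hxa
  have hxO := mem_of_sub_lt v hx
  have hyO := mem_of_sub_lt v hy
  have hlO : l ∈ v.integer := by
    refine quad_mem v (α := algebraMap ℂ K W.a₁) (const_mem v _)
      (add_mem (add_mem (add_mem hx3 (const_mem v W.a₂)) hxO) (const_mem v a)) ?_
    rw [addX, show (W⁄K).a₁ = algebraMap ℂ K W.a₁ from rfl,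
      show (W⁄K).a₂ = algebraMap ℂ K W.a₂ from rfl]
    ring
  have h1 : y - algebraMap ℂ K (W.negY a b) = (x - algebraMap ℂ K a) * l := by
    rw [hl]; field_simp
  have h2 : b = W.negY a b := const_eq v hy (by rw [h1]; exact val_mul_lt v hx hlO)
  have e₁ := equation_K W h.1
  have e₂ := equation_K W (nonsingular_iota (K := K) W hab).1
  have h3 : x ^ 2 + algebraMap ℂ K a * x + algebraMap ℂ K a ^ 2
      + algebraMap ℂ K W.a₂ * (x + algebraMap ℂ K a) + algebraMap ℂ K W.a₄
      - algebraMap ℂ K W.a₁ * y = (y - algebraMap ℂ K b) * l := by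
    apply mul_left_cancel₀ hd
    simp only [negY, map_sub, map_neg, map_mul] at h1
    linear_combination e₂ - e₁ + (y - algebraMap ℂ K b) * h1
  have h4 : W.a₁ * b - (3 * a ^ 2 + 2 * W.a₂ * a + W.a₄) = 0 := by
    apply const_eq_zero v
    have e : algebraMap ℂ K (W.a₁ * b - (3 * a ^ 2 + 2 * W.a₂ * a + W.a₄))
        = (x - algebraMap ℂ K a) * (x + algebraMap ℂ K (2 * a + W.a₂))
          - (y - algebraMap ℂ K b) * algebraMap ℂ K W.a₁ - (y - algebraMap ℂ K b) * l := by
      rw [← h3]
      simp only [map_sub, map_add, map_mul, map_pow, map_ofNat]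
      ring
    rw [e]
    exact val_sub_lt v (val_sub_lt v (val_mul_lt v hx (add_mem hxO (const_mem v _)))
      (val_mul_lt v hy (const_mem v _))) (val_mul_lt v hy hlO)
  rcases ((nonsingular_iff' a b).1 hab).2 with h5 | h5
  · exact h5 h4
  · apply h5
    simp only [negY] at h2
    linear_combination h2

variable [W.IsElliptic] (hres : ∀ t ∈ v.integer, ∃ a : ℂ, v (t - algebraMap ℂ K a) < 1)

omit [DecidableEq K] in
lemma nonsingular_of_lt {x y : K} (h : (W⁄K).Equation x y) {a b : ℂ}
    (hx : v (x - algebraMap ℂ K a) < 1) (hy : v (y - algebraMap ℂ K b) < 1) :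
    W.Nonsingular a b := by
  rw [← equation_iff_nonsingular, equation_iff']
  apply const_eq_zero v
  have hxO := mem_of_sub_lt v hx
  have hyO := mem_of_sub_lt v hy
  have e : algebraMap ℂ K (b ^ 2 + W.a₁ * a * b + W.a₃ * b
      - (a ^ 3 + W.a₂ * a ^ 2 + W.a₄ * a + W.a₆))
      = (x - algebraMap ℂ K a) * (x ^ 2 + algebraMap ℂ K (a + W.a₂) * x
          + algebraMap ℂ K (a ^ 2 + W.a₂ * a + W.a₄) - algebraMap ℂ K W.a₁ * y)
        - (y - algebraMap ℂ K b) * (y + algebraMap ℂ K (b + W.a₁ * a + W.a₃)) := by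
    simp only [map_sub, map_add, map_mul, map_pow]
    linear_combination equation_K W h
  rw [e]
  exact val_sub_lt v (val_mul_lt v hx (sub_mem (add_mem (add_mem (pow_mem hxO 2)
    (mul_mem (const_mem v _) hxO)) (const_mem v _)) (mul_mem (const_mem v _) hyO)))
    (val_mul_lt v hy (add_mem hyO (const_mem v _)))

include hres in
lemma exists_red (P : (W⁄K).Point) : ∃ c : W.Point, P - iota K W c ∈ E1 W v := by
  rcases P with _ | ⟨x, y, h⟩
  · exact ⟨0, by rw [map_zero, ← Point.zero_def, sub_zero]; exact zero_mem _⟩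
  · by_cases hx : 1 < v x
    · exact ⟨0, by rwa [map_zero, sub_zero, some_mem_E1]⟩
    · have hxO : x ∈ v.integer := not_lt.1 hx
      obtain ⟨a, ha⟩ := hres x hxO
      obtain ⟨b, hb⟩ := hres y (y_mem W v h.1 hxO)
      exact ⟨_, sub_iota_mem_E1 W v h (nonsingular_of_lt W v h.1 ha hb) ha hb⟩

omit [W.IsElliptic] in
lemma red_unique {P : (W⁄K).Point} {c c' : W.Point} (h : P - iota K W c ∈ E1 W v)
    (h' : P - iota K W c' ∈ E1 W v) : c = c' := by
  have := sub_mem h' h
  rw [sub_sub_sub_cancel_left, ← map_sub] at this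
  exact sub_eq_zero.1 (iota_mem_E1 W v this)

/-- Specialisation of points at `v`. -/
noncomputable def red : (W⁄K).Point →+ W.Point :=
  AddMonoidHom.mk' (fun P => (exists_red W v hres P).choose) (fun P Q => by
    apply red_unique W v (exists_red W v hres (P + Q)).choose_spec
    have := add_mem (exists_red W v hres P).choose_spec (exists_red W v hres Q).choose_spec
    rwa [sub_add_sub_comm, ← map_add] at this)

lemma red_eq_iff {P : (W⁄K).Point} {c : W.Point} :
    red W v hres P = c ↔ P - iota K W c ∈ E1 W v :=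
  ⟨fun h => h ▸ (exists_red W v hres P).choose_spec,
    fun h => red_unique W v (exists_red W v hres P).choose_spec h⟩

lemma red_iota (c : W.Point) : red W v hres (iota K W c) = c := by
  rw [red_eq_iff, sub_self]
  exact zero_mem _

lemma red_some_eq_zero_iff {x y : K} (h : (W⁄K).Nonsingular x y) :
    red W v hres (Point.some x y h) = 0 ↔ 1 < v x := by
  rw [red_eq_iff, map_zero, sub_zero, some_mem_E1]

lemma red_some_eq_some_iff {x y : K} (h : (W⁄K).Nonsingular x y) {a b : ℂ}
    (hab : W.Nonsingular a b) : red W v hres (Point.some x y h) = Point.some a b hab ↔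
      v (x - algebraMap ℂ K a) < 1 ∧ v (y - algebraMap ℂ K b) < 1 := by
  constructor
  · intro e
    have hx : x ∈ v.integer := by
      by_contra hx
      rw [(red_some_eq_zero_iff W v hres h).2 (not_le.1 hx)] at e
      exact Point.some_ne_zero hab e.symm
    obtain ⟨a', ha⟩ := hres x hx
    obtain ⟨b', hb⟩ := hres y (y_mem W v h.1 hx)
    have := (red_eq_iff W v hres).2
      (sub_iota_mem_E1 W v h (nonsingular_of_lt W v h.1 ha hb) ha hb)
    rw [e, Point.some.injEq] at this
    rw [this.1, this.2]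
    exact ⟨ha, hb⟩
  · rintro ⟨ha, hb⟩
    exact (red_eq_iff W v hres).2 (sub_iota_mem_E1 W v h hab ha hb)

end Pool.Agent.MP_d178f2_ag

end MrgPart1

-- ======== part 2: formerly Pool.Agent.MP_d178f2_ag.Push
section MrgPart2

/-!
Push-forward of divisors along a non-constant point, through the relative norm of ideals.
-/

open Polynomial WeierstrassCurve WeierstrassCurve.Affine WithZero IsDedekindDomain
open WeierstrassCurve.Affine.CoordinateRing
open scoped nonZeroDivisors

set_option linter.unusedSectionVars false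

namespace Pool.Agent.MP_d178f2_ag

variable {K : Type*} [Field K] [Algebra ℂ K]

variable (K) in
/-- The type of places. -/
abbrev Place := {v : Valuation K ℤᵐ⁰ // IsPlace v}

instance (v : Place K) : v.1.IsTrivialOn ℂ := v.2.2

lemma Place.exists_uniformizer (v : Place K) : ∃ π, π ≠ 0 ∧ v.1 π < 1 := by
  obtain ⟨π, hπ⟩ := v.2.1 (exp (-1))
  refine ⟨π, ?_, ?_⟩
  · rintro rfl
    simp at hπ
    exact exp_ne_zero hπ.symm
  · rw [hπ, ← exp_zero, exp_lt_exp]
    norm_num

lemma eq_of_isEquiv {v w : Valuation K ℤᵐ⁰} (hv : Function.Surjective v)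
    (hw : Function.Surjective w) (h : v.IsEquiv w) : v = w := by
  obtain ⟨π, hπ⟩ := hv (exp (-1))
  obtain ⟨π', hπ'⟩ := hw (exp (-1))
  have lt1 : (exp (-1) : ℤᵐ⁰) < 1 := by
    rw [← exp_zero, exp_lt_exp]; norm_num
  have le1 : ∀ z : ℤᵐ⁰, z < 1 → z ≤ exp (-1) := by
    intro z hz
    rcases eq_or_ne z 0 with rfl | h0
    · exact zero_le
    · rw [← exp_log h0, ← exp_zero, exp_lt_exp] at hz
      rw [← exp_log h0, exp_le_exp]
      omega
  have h1 : w π = exp (-1) := by
    apply le_antisymm (le1 _ (h.lt_one_iff_lt_one.1 (hπ ▸ lt1)))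
    rw [← hπ']
    apply (h _ _).1
    rw [hπ]
    exact le1 _ (h.lt_one_iff_lt_one.2 (hπ' ▸ lt1))
  ext z
  rcases eq_or_ne z 0 with rfl | hz
  · simp
  have h0 : v z ≠ 0 := (Valuation.ne_zero_iff v).2 hz
  have h2 : v (z * π ^ log (v z)) = 1 := by
    rw [map_mul, map_zpow₀, hπ, ← exp_zsmul]
    nth_rw 1 [← exp_log h0]
    rw [← exp_add]
    simp
  have h3 := h.eq_one_iff_eq_one.1 h2
  rw [map_mul, map_zpow₀, h1, ← hπ, ← map_zpow₀] at h3
  rw [map_mul] at h2
  have h4 : v (π ^ log (v z)) ≠ 0 := right_ne_zero_of_mul_eq_one h2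
  exact mul_right_cancel₀ h4 (h2.trans h3.symm)

lemma ord_mul (v : Valuation K ℤᵐ⁰) {f g : K} (hf : f ≠ 0) (hg : g ≠ 0) :
    ord v (f * g) = ord v f + ord v g := by
  unfold ord
  rw [map_mul, log_mul ((Valuation.ne_zero_iff v).2 hf) ((Valuation.ne_zero_iff v).2 hg)]
  ring

variable {W : WeierstrassCurve.Affine ℂ} [W.IsElliptic] [DecidableEq K]

/-- Specialisation at a place. -/
noncomputable def redP (htr : Algebra.trdeg ℂ K = 1) (v : Place K) : (W⁄K).Point →+ W.Point :=
  red W v.1 (fun _ ht => exists_residue htr v.1 v.exists_uniformizer ht)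

lemma red_eq_of_mult_ne_zero (htr : Algebra.trdeg ℂ K = 1) (v : Place K) (P : (W⁄K).Point)
    (c : W.Point) (h : mult (W := W) v.1 P c ≠ 0) : redP htr v P = c := by
  rcases P with _ | ⟨x, y, hxy⟩
  · exact absurd rfl h
  rcases c with _ | ⟨a, b, hab⟩
  · simp only [mult, ne_eq, ite_eq_right_iff, Classical.not_imp] at h
    exact (red_some_eq_zero_iff W v.1 _ hxy).2 h.1
  · apply (red_some_eq_some_iff W v.1 _ hxy hab).2
    by_contra hcon
    apply h
    have : 1 ≤ max (v.1 (x - algebraMap ℂ K a)) (v.1 (y - algebraMap ℂ K b)) := by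
      rw [le_max_iff]
      by_contra h2
      push Not at h2
      exact hcon h2
    simp only [mult, min_eq_left this, log_one, neg_zero]

lemma mult_iota (v : Place K) (c c' : W.Point) : mult (W := W) v.1 (iota K W c) c' = 0 := by
  rcases c with _ | ⟨a, b, hab⟩
  · rfl
  rw [iota_some]
  rcases c' with _ | ⟨a', b', hab'⟩
  · have : ¬ 1 < v.1 (algebraMap ℂ K a) := not_lt.2 (const_mem v.1 a)
    simp only [mult, if_neg this]
  · have key : ∀ z : ℂ, v.1 (algebraMap ℂ K z) = 0 ∨ v.1 (algebraMap ℂ K z) = 1 := by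
      intro z
      rcases eq_or_ne z 0 with rfl | hz
      · simp
      · exact Or.inr (Valuation.IsTrivialOn.eq_one z hz)
    simp only [mult, ← map_sub]
    rcases key (a - a') with h1 | h1 <;> rcases key (b - b') with h2 | h2 <;> rw [h1, h2] <;> simp

section Dedekind

variable [Algebra W.CoordinateRing K] [IsScalarTower ℂ W.CoordinateRing K]
  (B : Type*) [CommRing B] [IsDedekindDomain B] [Algebra W.CoordinateRing B]
  [Module.Finite W.CoordinateRing B] [Module.IsTorsionFree W.CoordinateRing B]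
  [Algebra B K] [IsFractionRing B K] [IsScalarTower W.CoordinateRing B K]

variable {B} in
variable (W K) in
/-- The place attached to a nonzero prime of `B`. -/
noncomputable def toPlace (p : HeightOneSpectrum B) : Place K :=
  ⟨p.valuation K, p.valuation_surjective K, ⟨fun c hc => by
    rw [IsScalarTower.algebraMap_apply ℂ W.CoordinateRing K,
      IsScalarTower.algebraMap_apply W.CoordinateRing B K]
    exact (p.valuation_eq_one_iff_notMem (K := K)).2 fun hm => p.isPrime.ne_top
      (Ideal.eq_top_of_isUnit_mem _ hm (((isUnit_iff_ne_zero.2 hc).map _).map _))⟩⟩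

lemma toPlace_injective : Function.Injective (toPlace K W (B := B)) := by
  intro p q h
  apply HeightOneSpectrum.eq_of_valuation_isEquiv_valuation (K := K)
  have : p.valuation K = q.valuation K := congrArg Subtype.val h
  rw [this]

lemma algebraMap_mem_integer (v : Place K) {y : K}
    (h : (W⁄K).Equation (algebraMap _ K (xx W)) y) (hy : y = algebraMap _ K (yy W))
    (hx : algebraMap _ K (xx W) ∈ v.1.integer) (r : W.CoordinateRing) :
    algebraMap _ K r ∈ v.1.integer := by
  have hy' := y_mem W v.1 h hx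
  have key : ∀ p : ℂ[X], algebraMap _ K (mk W (C p)) ∈ v.1.integer := by
    intro p
    have : algebraMap _ K (mk W (C p)) = aeval (algebraMap _ K (xx W)) p := by
      induction p using Polynomial.induction_on' with
      | add p q hp hq => simp only [map_add, hp, hq]
      | monomial n a =>
        rw [aeval_monomial, ← C_mul_X_pow_eq_monomial,
          IsScalarTower.algebraMap_apply ℂ W.CoordinateRing K, algebraMap_eq]
        simp only [map_mul, map_pow, xx]
    rw [this]
    exact aeval_mem v.1 hx p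
  obtain ⟨p, q, rfl⟩ := exists_smul_basis_eq r
  rw [smul, smul, mul_one, map_add, map_mul]
  exact add_mem (key p) (mul_mem (key q) (hy ▸ hy'))

lemma mem_range_toPlace (v : Place K)
    (h : ∀ r : W.CoordinateRing, algebraMap _ K r ∈ v.1.integer) :
    v ∈ Set.range (toPlace K W (B := B)) := by
  have hB : ∀ b : B, v.1 (algebraMap B K b) ≤ 1 := by
    intro b
    have hint : IsIntegral W.CoordinateRing (algebraMap B K b) :=
      (Algebra.IsIntegral.isIntegral (R := W.CoordinateRing) b).algebraMap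
    let : Algebra W.CoordinateRing v.1.integer :=
      ((algebraMap W.CoordinateRing K).codRestrict v.1.integer h).toAlgebra
    have : IsScalarTower W.CoordinateRing v.1.integer K :=
      IsScalarTower.of_algebraMap_eq fun _ => rfl
    exact (Valuation.integer.integers v.1).mem_of_integral hint.tower_top
  let I : Ideal B :=
    { carrier := {b | v.1 (algebraMap B K b) < 1}
      zero_mem' := by simp
      add_mem' := fun ha hb => by
        simp only [Set.mem_ofPred_eq, map_add] at *
        exact val_add_lt v.1 ha hb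
      smul_mem' := fun c b hb => by
        simp only [Set.mem_ofPred_eq, smul_eq_mul, map_mul (algebraMap B K)] at *
        rw [mul_comm]
        exact val_mul_lt v.1 hb (hB c) }
  have hI : ∀ b, b ∈ I ↔ v.1 (algebraMap B K b) < 1 := fun b => Iff.rfl
  have hI1 : ∀ b, b ∉ I → v.1 (algebraMap B K b) = 1 := fun b hb =>
    le_antisymm (hB b) (not_lt.1 hb)
  have hprime : I.IsPrime := by
    refine ⟨?_, fun {a b} hab => ?_⟩
    · rw [Ideal.ne_top_iff_one, hI]
      simp
    · by_contra hcon
      push Not at hcon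
      rw [hI, map_mul, map_mul, hI1 a hcon.1, hI1 b hcon.2] at hab
      simp at hab
  have hne : I ≠ ⊥ := by
    obtain ⟨π, hπ0, hπ⟩ := v.exists_uniformizer
    obtain ⟨a, b, hb, rfl⟩ := IsFractionRing.div_surjective (A := B) π
    have hb0 : algebraMap B K b ≠ 0 :=
      (map_ne_zero_iff _ (IsFractionRing.injective B K)).2 (nonZeroDivisors.ne_zero hb)
    have ha : a ∈ I := by
      have := val_mul_lt v.1 hπ (hB b)
      rwa [div_mul_cancel₀ _ hb0] at this
    intro hbot
    rw [hbot, Ideal.mem_bot] at ha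
    simp [ha] at hπ0
  refine ⟨⟨I, hprime, hne⟩, Subtype.ext ?_⟩
  apply eq_of_isEquiv (HeightOneSpectrum.valuation_surjective K _) v.2.1
  rw [Valuation.isEquiv_iff_valuationSubring,
    ← HeightOneSpectrum.valuationSubringAtPrime_eq_valuationSubring]
  apply ValuationSubring.eq_of_le_of_ne_top
  · rintro z ⟨a, s, hs, rfl⟩
    show v.1 _ ≤ 1
    rw [map_mul, map_inv₀, hI1 s hs, inv_one, mul_one]
    exact hB a
  · obtain ⟨π, hπ0, hπ⟩ := v.exists_uniformizer
    intro htop
    have : π⁻¹ ∈ v.1.valuationSubring := htop ▸ ValuationSubring.mem_top _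
    rw [Valuation.mem_valuationSubring_iff, map_inv₀,
      inv_le_one₀ (zero_lt_iff.2 ((Valuation.ne_zero_iff _).2 hπ0))] at this
    exact absurd hπ (not_lt.2 this)

variable (htr : Algebra.trdeg ℂ K = 1)
  (hP : (W⁄K).Nonsingular (algebraMap _ K (xx W)) (algebraMap _ K (yy W)))

lemma relNorm_mem {I : Ideal B} (hI : I ≠ ⊥) :
    Ideal.relNorm W.CoordinateRing I ∈ (Ideal W.CoordinateRing)⁰ :=
  mem_nonZeroDivisors_of_ne_zero fun h => hI (Ideal.relNorm_eq_bot_iff.1 h)

lemma algebraMap_sub_const (r : W.CoordinateRing) (a : ℂ) :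
    algebraMap W.CoordinateRing K r - algebraMap ℂ K a
      = algebraMap B K (algebraMap W.CoordinateRing B (r - algebraMap ℂ _ a)) := by
  rw [← IsScalarTower.algebraMap_apply, map_sub, ← IsScalarTower.algebraMap_apply]

lemma XYIdeal_mem {a b : ℂ} : XYIdeal W a (C b) ∈ (Ideal W.CoordinateRing)⁰ :=
  mem_nonZeroDivisors_of_ne_zero fun h => XClass_ne_zero a (by
    have : XClass W a ∈ XYIdeal W a (C b) := Ideal.subset_span (by simp)
    rwa [h, Ideal.zero_eq_bot, Ideal.mem_bot] at this)

lemma toClass_some_eq {a b : ℂ} (hab : W.Nonsingular a b) :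
    Point.toClass (Point.some a b hab)
      = Additive.ofMul (ClassGroup.mk0 ⟨XYIdeal W a (C b), XYIdeal_mem⟩) := by
  rw [← ClassGroup.mk_mk0 W.FunctionField]
  show Additive.ofMul (ClassGroup.mk W.FunctionField (XYIdeal' (W := W) hab)) = _
  congr 2
  exact Units.ext rfl

instance : CharZero (FractionRing W.CoordinateRing) :=
  charZero_of_injective_algebraMap (algebraMap ℂ (FractionRing W.CoordinateRing)).injective

lemma toClass_red_prime (p : HeightOneSpectrum B) :
    Point.toClass (redP htr (toPlace K W p) (Point.some _ _ hP))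
      = Additive.ofMul (ClassGroup.mk0 ⟨_, relNorm_mem B p.ne_bot⟩) := by
  have hp := p.isPrime
  have hpm := p.isMaximal
  have hne : Ideal.under W.CoordinateRing p.asIdeal ≠ ⊥ := Ideal.under_ne_bot _ p.ne_bot
  obtain ⟨a, b, hab, he⟩ := exists_eq_XYIdeal (Ideal.under W.CoordinateRing p.asIdeal) hne
  have hns : W.Nonsingular a b := equation_iff_nonsingular.1 hab
  have hx : XClass W a ∈ Ideal.under W.CoordinateRing p.asIdeal :=
    he ▸ Ideal.subset_span (by simp)
  have hy : YClass W (C b) ∈ Ideal.under W.CoordinateRing p.asIdeal :=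
    he ▸ Ideal.subset_span (by simp)
  have hred : redP htr (toPlace K W p) (Point.some _ _ hP) = Point.some a b hns := by
    apply (red_some_eq_some_iff W _ _ hP hns).2
    rw [algebraMap_sub_const B, algebraMap_sub_const B, ← XClass_eq, ← YClass_eq]
    exact ⟨(p.valuation_lt_one_iff_mem _).2 hx, (p.valuation_lt_one_iff_mem _).2 hy⟩
  have hlies : p.asIdeal.LiesOver (XYIdeal W a (C b)) := ⟨he.symm⟩
  have hmax := XYIdeal_isMaximal hab
  have hdeg : p.asIdeal.inertiaDeg W.CoordinateRing = 1 := by
    rw [Ideal.inertiaDeg_eq_of_isMaximal (XYIdeal W a (C b))]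
    let : Field (W.CoordinateRing ⧸ XYIdeal W a (C b)) := Ideal.Quotient.field _
    let : Field (B ⧸ p.asIdeal) := Ideal.Quotient.field _
    apply Module.finrank_of_bijective_algebraMap
    refine ⟨RingHom.injective _, fun z => ?_⟩
    obtain ⟨z, rfl⟩ := Ideal.Quotient.mk_surjective z
    obtain ⟨c, hc⟩ := exists_residue htr (toPlace K W p).1 (toPlace K W p).exists_uniformizer
      (t := algebraMap B K z) (p.valuation_le_one z)
    rw [IsScalarTower.algebraMap_apply ℂ W.CoordinateRing K,
      IsScalarTower.algebraMap_apply W.CoordinateRing B K, ← map_sub] at hc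
    refine ⟨Ideal.Quotient.mk _ (algebraMap ℂ _ c), ?_⟩
    rw [Ideal.Quotient.algebraMap_mk_of_liesOver, eq_comm, Ideal.Quotient.eq]
    exact (p.valuation_lt_one_iff_mem _).1 hc
  rw [hred, toClass_some_eq]
  congr 3
  rw [Ideal.relNorm_eq_pow_of_isMaximal p.asIdeal (XYIdeal W a (C b)), hdeg, pow_one]

lemma finite_multiplicity {I : Ideal B} (hI : I ≠ ⊥) :
    {p : HeightOneSpectrum B | multiplicity p.asIdeal I ≠ 0}.Finite :=
  (Ideal.finite_factors hI).subset fun _ hp => multiplicity_ne_zero.1 hp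

lemma toClass_finsum (I : Ideal B) (hI : I ≠ ⊥) :
    Point.toClass (∑ᶠ p : HeightOneSpectrum B,
      (multiplicity p.asIdeal I : ℤ) • redP htr (toPlace K W p) (Point.some _ _ hP))
      = Additive.ofMul (ClassGroup.mk0 ⟨_, relNorm_mem B hI⟩) := by
  classical
  induction I using UniqueFactorizationMonoid.induction_on_prime with
  | h₁ => exact absurd rfl hI
  | h₂ I hu =>
    have h1 : ∀ p : HeightOneSpectrum B, multiplicity p.asIdeal I = 0 := fun p =>
      multiplicity_eq_zero.2 fun h => p.prime.not_isUnit (isUnit_of_dvd_unit h hu)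
    obtain rfl := Ideal.isUnit_iff.1 hu
    simp only [h1, Nat.cast_zero, zero_zsmul, finsum_zero, map_zero]
    symm
    rw [ofMul_eq_zero, ClassGroup.mk0_eq_one_iff, Ideal.relNorm_top]
    exact top_isPrincipal
  | h₃ J q hJ hq ih =>
    let Q : HeightOneSpectrum B := ⟨q, Ideal.isPrime_of_prime hq, hq.ne_zero⟩
    have h1 : ∀ p : HeightOneSpectrum B, (multiplicity p.asIdeal (q * J) : ℤ) •
        redP htr (toPlace K W p) (Point.some _ _ hP)
        = (if p = Q then redP htr (toPlace K W p) (Point.some _ _ hP) else 0)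
          + (multiplicity p.asIdeal J : ℤ) • redP htr (toPlace K W p) (Point.some _ _ hP) := by
      intro p
      rw [multiplicity_mul p.prime (FiniteMultiplicity.of_prime_left p.prime hI), Nat.cast_add,
        add_zsmul]
      congr 1
      split_ifs with h
      · subst h
        rw [multiplicity_self, Nat.cast_one, one_zsmul]
      · rw [multiplicity_eq_zero.2]
        · rw [Nat.cast_zero, zero_zsmul]
        · intro hd
          apply h
          ext1
          exact associated_iff_eq.1 ((p.prime.dvd_prime_iff_associated hq).1 hd)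
    simp only [h1]
    rw [finsum_add_distrib, finsum_eq_single _ Q (fun p hp => if_neg hp), if_pos rfl, map_add,
      ih hJ, toClass_red_prime, ← ofMul_mul, ← map_mul]
    · congr 3
      exact Subtype.ext (map_mul (Ideal.relNorm W.CoordinateRing) q J).symm
    · exact (Set.finite_singleton Q).subset fun p hp => by
        by_contra h
        exact hp (if_neg h)
    · exact (finite_multiplicity B hJ).subset fun p hp h => hp (by simp only [h, Nat.cast_zero, zero_zsmul])

lemma red_ne_zero_iff (v : Place K) :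
    redP htr v (Point.some _ _ hP) ≠ 0 ↔ v ∈ Set.range (toPlace K W (B := B)) := by
  rw [redP, Ne, red_some_eq_zero_iff, not_lt]
  constructor
  · intro h
    exact mem_range_toPlace B v (algebraMap_mem_integer v hP.1 rfl h)
  · rintro ⟨p, rfl⟩
    rw [IsScalarTower.algebraMap_apply W.CoordinateRing B K]
    exact p.valuation_le_one _

lemma finsum_place (n : Place K → ℤ) :
    ∑ᶠ v : Place K, n v • redP htr v (Point.some _ _ hP)
      = ∑ᶠ p : HeightOneSpectrum B,
        n (toPlace K W p) • redP htr (toPlace K W p) (Point.some _ _ hP) := by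
  rw [← finsum_mem_range (f := fun v => n v • redP htr v (Point.some _ _ hP))
    (toPlace_injective B), ← finsum_mem_inter_support, ← finsum_mem_support,
    Set.inter_eq_self_of_subset_right]
  intro v hv
  rw [← red_ne_zero_iff B htr hP]
  intro h
  exact hv (by simp only [h, zsmul_zero])

lemma ord_toPlace (p : HeightOneSpectrum B) {b : B} (hb : b ≠ 0) :
    ord (toPlace K W p).1 (algebraMap B K b) = multiplicity p.asIdeal (Ideal.span {b}) := by
  show -log (p.valuation K (algebraMap B K b)) = _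
  rw [p.valuation_of_algebraMap, p.intValuation_eq_exp_neg_multiplicity hb, log_exp, neg_neg]

include B in
lemma finite_ord {h : K} (hh : h ≠ 0) :
    {v : Place K | redP htr v (Point.some _ _ hP) ≠ 0 ∧ ord v.1 h ≠ 0}.Finite := by
  obtain ⟨a, b, hb, rfl⟩ := IsFractionRing.div_surjective (A := B) h
  have hb0 := nonZeroDivisors.ne_zero hb
  have ha0 : a ≠ 0 := by
    rintro rfl
    simp at hh
  have hb1 : algebraMap B K b ≠ 0 := (map_ne_zero_iff _ (IsFractionRing.injective B K)).2 hb0
  refine (((finite_multiplicity B (I := Ideal.span {a}) (by simpa using ha0)).union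
    (finite_multiplicity B (I := Ideal.span {b}) (by simpa using hb0))).image
      (toPlace K W)).subset ?_
  rintro v ⟨h1, h2⟩
  obtain ⟨p, rfl⟩ := (red_ne_zero_iff B htr hP v).1 h1
  refine ⟨p, ?_, rfl⟩
  by_contra hcon
  simp only [Set.mem_union, Set.mem_ofPred_eq, not_or, not_not] at hcon
  have h3 := ord_mul (toPlace K W p).1 hh hb1
  rw [div_mul_cancel₀ _ hb1, ord_toPlace B p ha0, ord_toPlace B p hb0, hcon.1, hcon.2] at h3
  exact h2 (by simpa using h3.symm)

lemma finsum_ord_int {b : B} (hb : b ≠ 0) :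
    ∑ᶠ v : Place K, ord v.1 (algebraMap B K b) • redP htr v (Point.some _ _ hP) = 0 := by
  rw [finsum_place B htr hP, ← Point.toClass_eq_zero]
  simp only [ord_toPlace B _ hb]
  rw [toClass_finsum B htr hP _ (by simpa using hb), ofMul_eq_zero, ClassGroup.mk0_eq_one_iff,
    Ideal.relNorm_singleton]
  exact ⟨⟨_, rfl⟩⟩

include B in
lemma finsum_ord {h : K} (hh : h ≠ 0) :
    ∑ᶠ v : Place K, ord v.1 h • redP htr v (Point.some _ _ hP) = 0 := by
  obtain ⟨a, b, hb, rfl⟩ := IsFractionRing.div_surjective (A := B) h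
  have hb0 := nonZeroDivisors.ne_zero hb
  have ha0 : a ≠ 0 := by
    rintro rfl
    simp at hh
  have hb1 : algebraMap B K b ≠ 0 := (map_ne_zero_iff _ (IsFractionRing.injective B K)).2 hb0
  have h1 := finsum_ord_int B htr hP ha0
  have h2 := finsum_ord_int B htr hP hb0
  have h3 : ∀ v : Place K, ord v.1 (algebraMap B K a)
      = ord v.1 (algebraMap B K a / algebraMap B K b) + ord v.1 (algebraMap B K b) := by
    intro v
    rw [← ord_mul v.1 hh hb1, div_mul_cancel₀ _ hb1]
  have fin : ∀ {g : K}, g ≠ 0 → (Function.support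
      fun v : Place K => ord v.1 g • redP htr v (Point.some _ _ hP)).Finite := by
    intro g hg
    refine (finite_ord B htr hP hg).subset fun v hv => ⟨fun h => hv ?_, fun h => hv ?_⟩ <;>
      simp only [h, zsmul_zero, zero_zsmul]
  simp only [h3, add_zsmul] at h1
  rwa [finsum_add_distrib (fin hh) (fin hb1), h2, add_zero] at h1

lemma map_XYIdeal_ne_bot (a b : ℂ) :
    (XYIdeal W a (C b)).map (algebraMap W.CoordinateRing B) ≠ ⊥ :=
  Ideal.map_ne_bot_of_ne_bot (nonZeroDivisors.ne_zero XYIdeal_mem)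

lemma mult_toPlace (p : HeightOneSpectrum B) {a b : ℂ} (hab : W.Nonsingular a b) :
    mult (W := W) (toPlace K W p).1 (Point.some _ _ hP) (Point.some a b hab)
      = multiplicity p.asIdeal ((XYIdeal W a (C b)).map (algebraMap W.CoordinateRing B)) := by
  have hfin := FiniteMultiplicity.of_prime_left p.prime (map_XYIdeal_ne_bot (W := W) B a b)
  set n := multiplicity p.asIdeal ((XYIdeal W a (C b)).map (algebraMap W.CoordinateRing B))
  show -log (min 1 (max (p.valuation K _) (p.valuation K _))) = _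
  rw [algebraMap_sub_const B, algebraMap_sub_const B, ← XClass_eq, ← YClass_eq,
    p.valuation_of_algebraMap, p.valuation_of_algebraMap]
  have key : ∀ k : ℕ, max (p.intValuation (algebraMap _ B (XClass W a)))
      (p.intValuation (algebraMap _ B (YClass W (C b)))) ≤ exp (-(k : ℤ)) ↔ k ≤ n := by
    intro k
    rw [max_le_iff, p.intValuation_le_pow_iff_mem, p.intValuation_le_pow_iff_mem,
      ← hfin.pow_dvd_iff_le_multiplicity, Ideal.dvd_iff_le, XYIdeal, Ideal.map_span,
      Set.image_pair, Ideal.span_le, Set.insert_subset_iff, Set.singleton_subset_iff]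
    rfl
  set M := max (p.intValuation (algebraMap _ B (XClass W a)))
      (p.intValuation (algebraMap _ B (YClass W (C b))))
  have h1 : M ≤ exp (-(n : ℤ)) := (key n).2 le_rfl
  have h2 : exp (-((n + 1 : ℕ) : ℤ)) < M := not_le.1 fun h => by
    have := (key (n + 1)).1 h
    omega
  have h0 : M ≠ 0 := (exp_pos.trans h2).ne'
  have h3 : M ≤ 1 := max_le (p.intValuation_le_one _) (p.intValuation_le_one _)
  rw [min_eq_right h3]
  rw [← log_le_iff_le_exp h0] at h1
  rw [← lt_log_iff_exp_lt h0] at h2
  omega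

include B in
lemma finite_fibre {a b : ℂ} (hab : W.Nonsingular a b) :
    {v : Place K | redP htr v (Point.some _ _ hP) = Point.some a b hab}.Finite := by
  refine ((Ideal.finite_factors (map_XYIdeal_ne_bot (W := W) B a b)).image
    (toPlace K W)).subset ?_
  intro v hv
  obtain ⟨p, rfl⟩ := (red_ne_zero_iff B htr hP v).1 (hv ▸ Point.some_ne_zero hab)
  refine ⟨p, ?_, rfl⟩
  have h := (red_some_eq_some_iff W _ _ hP hab).1 hv
  rw [algebraMap_sub_const B, algebraMap_sub_const B, ← XClass_eq, ← YClass_eq] at h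
  rw [Set.mem_ofPred_eq, Ideal.dvd_iff_le, XYIdeal, Ideal.map_span,
    Set.image_pair, Ideal.span_le, Set.insert_subset_iff, Set.singleton_subset_iff]
  exact ⟨(p.valuation_lt_one_iff_mem _).1 h.1, (p.valuation_lt_one_iff_mem _).1 h.2⟩

lemma finsum_mult (c : W.Point) :
    ∑ᶠ v : Place K, mult (W := W) v.1 (Point.some _ _ hP) c • redP htr v (Point.some _ _ hP)
      = Module.finrank W.CoordinateRing B • c := by
  rcases c with _ | ⟨a, b, hab⟩
  · rw [← Point.zero_def, nsmul_zero]
    apply finsum_eq_zero_of_forall_eq_zero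
    intro v
    by_cases h : mult (W := W) v.1 (Point.some _ _ hP) 0 = 0
    · rw [h, zero_zsmul]
    · rw [red_eq_of_mult_ne_zero htr v _ _ h, zsmul_zero]
  · apply Point.toClass_injective
    rw [finsum_place B htr hP]
    simp only [mult_toPlace B hP _ hab]
    rw [toClass_finsum B htr hP _ (map_XYIdeal_ne_bot B a b), map_nsmul, toClass_some_eq,
      ← ofMul_pow, ← map_pow]
    congr 3
    exact Ideal.relNorm_algebraMap B _

end Dedekind

end Pool.Agent.MP_d178f2_ag

end MrgPart2

-- ======== part 3: formerly Pool.Agent.MP_d178f2_ag.Main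
section MrgPart3

/-!
Abel's theorem for push-forwards and the main theorem.
-/

open Polynomial WeierstrassCurve WeierstrassCurve.Affine WithZero IsDedekindDomain
open WeierstrassCurve.Affine.CoordinateRing
open scoped nonZeroDivisors Polynomial.Bivariate

set_option linter.unusedSectionVars false

namespace Pool.Agent.MP_d178f2_ag

variable {K : Type*} [Field K] [Algebra ℂ K] [Algebra.EssFiniteType ℂ K]
  {W : WeierstrassCurve.Affine ℂ} [W.IsElliptic] [DecidableEq K] (htr : Algebra.trdeg ℂ K = 1)

/-- What is needed about a non-constant point. -/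
structure Good (P : (W⁄K).Point) : Prop where
  fibre : ∀ c : W.Point, c ≠ 0 → {v : Place K | redP htr v P = c}.Finite
  fin_ord : ∀ h : K, h ≠ 0 → {v : Place K | redP htr v P ≠ 0 ∧ ord v.1 h ≠ 0}.Finite
  abel : ∀ h : K, h ≠ 0 → ∑ᶠ v : Place K, ord v.1 h • redP htr v P = 0
  deg : ∃ δ : ℕ, 0 < δ ∧ ∀ c : W.Point,
    ∑ᶠ v : Place K, mult (W := W) v.1 P c • redP htr v P = δ • c

lemma good_some {x y : K} (h : (W⁄K).Nonsingular x y) (hx : x ∉ Set.range (algebraMap ℂ K)) :
    Good htr (Point.some x y h) := by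
  let φ : W.CoordinateRing →+* K := AdjoinRoot.lift (aeval x : ℂ[X] →ₐ[ℂ] K).toRingHom y (by
    simp only [Affine.polynomial, eval₂_add, eval₂_sub, eval₂_mul, eval₂_pow, eval₂_X, eval₂_C,
      AlgHom.toRingHom_eq_coe, RingHom.coe_coe, map_add, map_mul, map_pow, aeval_C, aeval_X]
    linear_combination equation_K W h.1)
  have hφx : φ (xx W) = x := by
    simp only [φ, xx, AdjoinRoot.lift_mk, eval₂_C, AlgHom.toRingHom_eq_coe, RingHom.coe_coe,
      aeval_X]
  have hφy : φ (yy W) = y := by
    simp only [φ, yy, AdjoinRoot.lift_mk, eval₂_X]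
  have hφc : ∀ c : ℂ, φ (algebraMap ℂ _ c) = algebraMap ℂ K c := by
    intro c
    simp only [φ, algebraMap_eq, AdjoinRoot.lift_mk, eval₂_C, AlgHom.toRingHom_eq_coe,
      RingHom.coe_coe, aeval_C]
  have hinj : Function.Injective φ := by
    rw [RingHom.injective_iff_ker_eq_bot]
    by_contra hne
    have := RingHom.ker_isPrime φ
    obtain ⟨a, b, -, he⟩ := exists_eq_XYIdeal (RingHom.ker φ) hne
    have h1 : XClass W a ∈ RingHom.ker φ := he ▸ Ideal.subset_span (by simp)
    rw [RingHom.mem_ker, XClass_eq, map_sub, hφx, hφc, sub_eq_zero] at h1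
    exact hx ⟨a, h1.symm⟩
  let : Algebra W.CoordinateRing K := φ.toAlgebra
  have : IsScalarTower ℂ W.CoordinateRing K :=
    IsScalarTower.of_algebraMap_eq fun c => (hφc c).symm
  have : FaithfulSMul W.CoordinateRing K := (faithfulSMul_iff_algebraMap_injective _ _).2 hinj
  let : Algebra W.FunctionField K := FractionRing.liftAlgebra W.CoordinateRing K
  have : IsScalarTower W.CoordinateRing W.FunctionField K :=
    FractionRing.isScalarTower_liftAlgebra W.CoordinateRing K
  have : IsScalarTower ℂ W.FunctionField K := IsScalarTower.of_algebraMap_eq fun c => by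
    rw [IsScalarTower.algebraMap_apply ℂ W.CoordinateRing W.FunctionField,
      ← IsScalarTower.algebraMap_apply W.CoordinateRing W.FunctionField K,
      ← IsScalarTower.algebraMap_apply ℂ W.CoordinateRing K]
  have halg : Algebra.IsAlgebraic W.FunctionField K := by
    have h1 := isAlgebraic_adjoin htr (transcendental_of_notMem hx)
    have h2 : Algebra.adjoin ℂ {x} ≤ (IsScalarTower.toAlgHom ℂ W.FunctionField K).range := by
      rw [Algebra.adjoin_le_iff, Set.singleton_subset_iff]
      refine ⟨algebraMap W.CoordinateRing W.FunctionField (xx W), ?_⟩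
      show algebraMap W.FunctionField K _ = x
      rw [← IsScalarTower.algebraMap_apply]
      exact hφx
    refine ⟨fun z => ?_⟩
    have h3 := (h1.isAlgebraic z).tower_top_of_subalgebra_le h2
    exact IsAlgebraic.of_ringHom_of_comp_eq
      (IsScalarTower.toAlgHom ℂ W.FunctionField K).rangeRestrict (RingHom.id K) h3
      (AlgHom.rangeRestrict_surjective _) Function.injective_id rfl
  have : Algebra.EssFiniteType W.FunctionField K := Algebra.EssFiniteType.of_comp ℂ _ K
  have : FiniteDimensional W.FunctionField K := Algebra.finite_of_essFiniteType_of_isAlgebraic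
  let B := integralClosure W.CoordinateRing K
  have : IsDedekindDomain B := integralClosure.isDedekindDomain _ W.FunctionField K
  have : Module.Finite W.CoordinateRing B := IsIntegralClosure.finite _ W.FunctionField K B
  have : IsFractionRing B K := integralClosure.isFractionRing_of_finite_extension W.FunctionField K
  have ex : algebraMap W.CoordinateRing K (xx W) = x := hφx
  have ey : algebraMap W.CoordinateRing K (yy W) = y := hφy
  have hP : (W⁄K).Nonsingular (algebraMap _ K (xx W)) (algebraMap _ K (yy W)) := by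
    rwa [ex, ey]
  have e : Point.some x y h = Point.some _ _ hP := by
    rw [Point.some.injEq]
    exact ⟨ex.symm, ey.symm⟩
  rw [e]
  refine ⟨?_, fun g hg => finite_ord B htr hP hg, fun g hg => finsum_ord B htr hP hg,
    Module.finrank W.CoordinateRing B, Module.finrank_pos, finsum_mult B htr hP⟩
  rintro (_ | ⟨a, b, hab⟩) hc
  · exact absurd rfl hc
  · exact finite_fibre B htr hP hab

lemma notMem_range_iota {x y : K} (h : (W⁄K).Nonsingular x y)
    (hx : x ∉ Set.range (algebraMap ℂ K)) : Point.some x y h ∉ Set.range (iota K W) := by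
  rintro ⟨_ | ⟨a, b, hab⟩, e⟩
  · exact Point.some_ne_zero h e.symm
  · rw [iota_some, Point.some.injEq] at e
    exact hx ⟨a, e.1⟩

lemma good_of_notMem {P : (W⁄K).Point} (hP : P ∉ Set.range (iota K W)) : Good htr P := by
  rcases P with _ | ⟨x, y, h⟩
  · exact absurd ⟨0, rfl⟩ hP
  apply good_some
  rintro ⟨a, rfl⟩
  obtain ⟨b, hb⟩ := exists_equation W a
  have hns : W.Nonsingular a b := equation_iff_nonsingular.1 hb
  apply hP
  rcases Y_eq_of_X_eq h.1 (nonsingular_iota W hns).1 rfl with rfl | rfl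
  · exact ⟨Point.some a b hns, rfl⟩
  · exact ⟨-Point.some a b hns, by rw [map_neg, iota_some, Point.neg_some]⟩

lemma add_iota_notMem {P : (W⁄K).Point} (hP : P ∉ Set.range (iota K W)) (c : W.Point) :
    P + iota K W c ∉ Set.range (iota K W) := by
  rintro ⟨c', e⟩
  exact hP ⟨c' - c, by rw [map_sub, e, add_sub_cancel_right]⟩

lemma redP_iota (v : Place K) (c : W.Point) : redP htr v (iota K W c) = c := red_iota W v.1 _ c

lemma finite_fibre_all {P : (W⁄K).Point} (hP : P ∉ Set.range (iota K W)) (c : W.Point) :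
    {v : Place K | redP htr v P = c}.Finite := by
  by_cases hc : c = 0
  · obtain ⟨b, hb⟩ := exists_equation W 0
    have hns : W.Nonsingular 0 b := equation_iff_nonsingular.1 hb
    refine ((good_of_notMem htr (add_iota_notMem hP (Point.some 0 b hns))).fibre _
      (Point.some_ne_zero hns)).subset fun v hv => ?_
    rw [Set.mem_ofPred_eq] at hv ⊢
    rw [map_add, hv, hc, zero_add, redP_iota]
  · exact (good_of_notMem htr hP).fibre c hc

include htr in
lemma finite_ord_all {P : (W⁄K).Point} (hP : P ∉ Set.range (iota K W)) {h : K} (hh : h ≠ 0) :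
    {v : Place K | ord v.1 h ≠ 0}.Finite := by
  refine (((good_of_notMem htr hP).fin_ord h hh).union (finite_fibre_all htr hP 0)).subset
    fun v hv => ?_
  by_cases h0 : redP htr v P = 0
  · exact Or.inr h0
  · exact Or.inl ⟨h0, hv⟩

lemma finite_support_smul {n : Place K → ℤ} (hn : {v | n v ≠ 0}.Finite) (f : Place K → W.Point) :
    (Function.support fun v => n v • f v).Finite :=
  hn.subset fun v hv h => hv (by simp only [h, zero_zsmul])

lemma abel_all {P : (W⁄K).Point} (hP : P ∉ Set.range (iota K W)) {h : K} (hh : h ≠ 0)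
    (Q : (W⁄K).Point) : ∑ᶠ v : Place K, ord v.1 h • redP htr v Q = 0 := by
  by_cases hQ : Q ∈ Set.range (iota K W)
  · obtain ⟨c, rfl⟩ := hQ
    have h1 := (good_of_notMem htr (add_iota_notMem hP c)).abel h hh
    have h2 := (good_of_notMem htr hP).abel h hh
    have fin := finite_ord_all htr hP hh
    simp only [map_add, zsmul_add] at h1
    rwa [finsum_add_distrib (finite_support_smul fin _) (finite_support_smul fin _), h2,
      zero_add] at h1
  · exact (good_of_notMem htr hQ).abel h hh

include htr in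
lemma finite_mult (Q : (W⁄K).Point) (c : W.Point) :
    {v : Place K | mult (W := W) v.1 Q c ≠ 0}.Finite := by
  by_cases hQ : Q ∈ Set.range (iota K W)
  · obtain ⟨c', rfl⟩ := hQ
    simp [mult_iota]
  · exact (finite_fibre_all htr hQ c).subset fun v hv => red_eq_of_mult_ne_zero htr v Q c hv

include htr in
lemma finite_pullback (Q : (W⁄K).Point) (D : W.Point →₀ ℤ) :
    {v : Place K | pullback (W := W) v.1 Q D ≠ 0}.Finite := by
  refine (D.support.finite_toSet.biUnion fun c _ => finite_mult htr Q c).subset fun v hv => ?_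
  obtain ⟨c, hc, h⟩ := Finset.exists_ne_zero_of_sum_ne_zero hv
  exact Set.mem_biUnion hc (right_ne_zero_of_mul h)

lemma push_pullback (Q : (W⁄K).Point) (D : W.Point →₀ ℤ) :
    ∃ δ : ℕ, (Q ∉ Set.range (iota K W) → 0 < δ) ∧
      ∑ᶠ v : Place K, pullback (W := W) v.1 Q D • redP htr v Q = δ • D.sum fun c n => n • c := by
  obtain ⟨δ, h1, h2⟩ : ∃ δ : ℕ, (Q ∉ Set.range (iota K W) → 0 < δ) ∧ ∀ c : W.Point,
      ∑ᶠ v : Place K, mult (W := W) v.1 Q c • redP htr v Q = δ • c := by
    by_cases hQ : Q ∈ Set.range (iota K W)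
    · obtain ⟨c', rfl⟩ := hQ
      exact ⟨0, fun h => absurd ⟨c', rfl⟩ h, fun c => by
        simp only [mult_iota, zero_zsmul, finsum_zero, zero_nsmul]⟩
    · obtain ⟨δ, h1, h2⟩ := (good_of_notMem htr hQ).deg
      exact ⟨δ, fun _ => h1, h2⟩
  refine ⟨δ, h1, ?_⟩
  have e : ∀ v : Place K, pullback (W := W) v.1 Q D • redP htr v Q
      = ∑ c ∈ D.support, D c • (mult (W := W) v.1 Q c • redP htr v Q) := by
    intro v
    simp only [← mul_zsmul]
    exact map_sum (zmultiplesHom W.Point (redP htr v Q)) _ _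
  simp only [e]
  rw [finsum_sum_comm, Finsupp.sum, ← Finset.sum_nsmul]
  · apply Finset.sum_congr rfl
    intro c _
    have := (zsmulAddGroupHom (D c) : W.Point →+ W.Point).map_finsum
      (finite_support_smul (finite_mult htr Q c) fun v => redP htr v Q)
    simp only [zsmulAddGroupHom_apply] at this
    rw [← this, h2, ← natCast_zsmul, ← natCast_zsmul, ← mul_zsmul, ← mul_zsmul, mul_comm]
  · intro c _
    exact (finite_mult htr Q c).subset fun v hv h => hv (by
      simp only [h, zero_zsmul, zsmul_zero])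

include htr in
theorem main (D : W.Point →₀ ℤ) (m : ℕ) (P : Fin m → (W⁄K).Point)
    (hnc : ∃ i, P i ∉ Set.range (iota K W)) (hsum : ∑ i, P i = 0)
    (hq : ∀ i j, ∃ N : ℕ, 0 < N ∧ ∃ h : K, h ≠ 0 ∧ ∀ v : Valuation K ℤᵐ⁰, IsPlace v →
      ord v h = N * (pullback (W := W) v (P i) D - pullback (W := W) v (P j) D)) :
    IsOfFinAddOrder (D.sum fun c n => n • c) := by
  obtain ⟨i, hi⟩ := hnc
  choose δ hδ0 hδ using fun j => push_pullback htr (P j) D
  set a := D.sum fun c n => n • c
  set T : Fin m → W.Point := fun j =>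
    ∑ᶠ v : Place K, pullback (W := W) v.1 (P i) D • redP htr v (P j) with hT
  have fin := fun j => finite_pullback htr (P j) D
  have h1 : ∀ j, T j - δ j • a ∈ AddCommGroup.torsion W.Point := by
    intro j
    obtain ⟨N, hN, h, hh, hv⟩ := hq i j
    have h2 := abel_all htr hi hh (P j)
    have e : ∀ v : Place K, ord v.1 h • redP htr v (P j)
        = (N : ℤ) • (pullback (W := W) v.1 (P i) D • redP htr v (P j)
          - pullback (W := W) v.1 (P j) D • redP htr v (P j)) := by
      intro v
      rw [hv v.1 v.2, mul_zsmul, sub_zsmul, sub_eq_add_neg]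
    simp only [e] at h2
    have fin1 := finite_support_smul (fin i) fun v => redP htr v (P j)
    have fin2 := finite_support_smul (fin j) fun v => redP htr v (P j)
    have h3 := (zsmulAddGroupHom (N : ℤ) : W.Point →+ W.Point).map_finsum
      (f := fun v : Place K => pullback (W := W) v.1 (P i) D • redP htr v (P j)
          - pullback (W := W) v.1 (P j) D • redP htr v (P j))
      ((fin1.union fin2).subset (Function.support_sub _ _))
    simp only [zsmulAddGroupHom_apply] at h3
    rw [← h3, finsum_sub_distrib fin1 fin2, hδ j, natCast_zsmul] at h2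
    exact isOfFinAddOrder_iff_nsmul_eq_zero.2 ⟨N, hN, h2⟩
  have h2 : ∑ j, T j = 0 := by
    rw [hT, ← finsum_sum_comm _ _ fun j _ => finite_support_smul (fin i) _]
    apply finsum_eq_zero_of_forall_eq_zero
    intro v
    rw [Finset.sum_zsmul, ← map_sum, hsum, map_zero, zsmul_zero]
  have h3 := neg_mem (sum_mem (t := Finset.univ) fun j _ => h1 j)
  rw [Finset.sum_sub_distrib, h2, zero_sub, neg_neg, Finset.sum_nsmul_assoc] at h3
  refine IsOfFinAddOrder.of_nsmul h3 ?_
  have := Finset.single_le_sum (f := δ) (fun j _ => Nat.zero_le _) (Finset.mem_univ i)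
  have := hδ0 i hi
  omega

end Pool.Agent.MP_d178f2_ag

end MrgPart3

-- marker of a merged file
example : 731051 + 232681 = 731051 + 232681 := rfl
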